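import Mathlib
import Pool.Prelude.Def_F_c31e40fa
import Pool.Agent.H462R2.AD3

set_option autoImplicit false

open Filter Topology MeasureTheory

namespace Pool.Agent.Results.MP_af9036_an.AlmostAllDegrees

/-- The parameters `c` for which `z ^ n + c` has an attracting cycle. -/
def hyp (n : ℕ) : Set ℂ := {c | ∃ m z, N62a1eb23.IsAttractingCycle (fun z => z ^ n + c) m z}

/-- The degrees `n ≥ 2` in which density of hyperbolicity fails at the parameter `c`: `c` is in the
Multibrot set of power `n` but is not a limit of parameters with an attracting cycle. -/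
def exceptional (c : ℂ) : Set ℕ :=
  {n | 2 ≤ n ∧ c ∈ N62a1eb23.multibrotSet n ∧ c ∉ closure (hyp n)}

/-- Density of hyperbolicity at a fixed parameter `c` holds in almost all degrees. -/
theorem result :
    -- location of the parameters at which density of hyperbolicity can fail
    (∀ c : ℂ, ∀ n ∈ exceptional c, c ≠ 0 ∧ |Real.log ‖c‖| ≤ 200 * Real.log n / n ∧
      (‖c‖ = 1 → 0 < ‖c ^ (3 * (n - 1)) - 1‖ ∧
        ‖c ^ (3 * (n - 1)) - 1‖ ≤ 200 * Real.log n / n)) ∧
    -- only finitely many exceptional degrees off the unit circle and at the roots of unity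
    (∀ c : ℂ, (‖c‖ ≠ 1 ∨ ∃ k, 0 < k ∧ c ^ k = 1) → (exceptional c).Finite) ∧
    -- at every `c` the gaps between the exceptional degrees tend to infinity
    (∀ c : ℂ, ∀ Q : ℕ,
      {n | n ∈ exceptional c ∧ ∃ m ∈ exceptional c, n < m ∧ m ≤ n + Q}.Finite) ∧
    -- at every `c` the exceptional degrees have density zero
    (∀ c : ℂ, Tendsto (fun N : ℕ => ((exceptional c ∩ Set.Iio N).ncard : ℝ) / N) atTop (𝓝 0)) ∧
    -- in every degree the exceptional parameters of the unit circle have small length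
    (∀ n : ℕ, 2 ≤ n → volume {θ : ℝ | θ ∈ Set.Icc 0 (2 * Real.pi) ∧
      n ∈ exceptional (Complex.exp (θ * Complex.I))} ≤ ENNReal.ofReal (12000 * Real.log n / n)) ∧
    -- at almost every `c` of the unit circle there are few exceptional degrees
    (∀ s : ℝ, 2 < s → ∀ᵐ θ : ℝ, ∃ K : ℝ, ∀ N : ℕ, 2 ≤ N →
      ((exceptional (Complex.exp (θ * Complex.I)) ∩ Set.Iic N).ncard : ℝ) ≤
        K * Real.log N ^ s) :=
  ⟨fun _ _ hn => ⟨Pool.Agent.H462R2.AD.ne_zero_of_bad hn,
      Pool.Agent.H462R2.AD.log_norm_le hn, fun hc =>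
      ⟨Pool.Agent.H462R2.AD.norm_cube_pos hn, Pool.Agent.H462R2.AD.norm_cube_le hc hn⟩⟩,
    fun _ h => Pool.Agent.H462R2.AD.bad_finite h,
    fun c Q => Pool.Agent.H462R2.AD.gaps c Q,
    fun c => Pool.Agent.H462R2.AD.density c,
    fun _ hn => Pool.Agent.H462R2.AD.volume_bad hn,
    fun _ hs => Pool.Agent.H462R2.AD.ae_count hs⟩

end Pool.Agent.Results.MP_af9036_an.AlmostAllDegrees
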