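import Mathlib
import Pool.Prelude.Def_F_c31e40fa
import Pool.Agent.H749R2.Hyp2

set_option autoImplicit false

namespace Pool.Agent.Results.MP_af9036_an.CoarseDensity

/-- Coarse density of hyperbolicity, uniform in the degree: every `c` in the Multibrot set `M_n` is
at distance at most `300 / n`, and at most `10⁴ log n / (n² |c|^(n-1))`, from a parameter `c'` such
that `z ↦ z ^ n + c'` has an attracting cycle (of period at most `2`). -/
theorem result :
    ∀ n : ℕ, 2 ≤ n → ∀ c ∈ N62a1eb23.multibrotSet n, ∃ c' : ℂ,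
      (∃ m z, (m = 1 ∨ m = 2) ∧ N62a1eb23.IsAttractingCycle (fun z => z ^ n + c') m z) ∧
        ‖c' - c‖ ≤ 300 / n ∧
        ‖c' - c‖ * ((n : ℝ) ^ 2 * ‖c‖ ^ (n - 1)) ≤ 10000 * Real.log n :=
  fun _ hn _ hc => Pool.Agent.H749R2.Hyp.coarse hn hc

end Pool.Agent.Results.MP_af9036_an.CoarseDensity
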