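import Mathlib
import Pool.Prelude.Def_F_c31e40fa
import Pool.Agent.H462R2.CD3

set_option autoImplicit false

namespace Pool.Agent.Results.MP_af9036_an.CoarseDensityAllOrders

/-- The map `z ↦ z ^ n + c`. -/
def f (n : ℕ) (c : ℂ) : ℂ → ℂ := fun z => z ^ n + c

/-- The parameters `c` for which `z ^ n + c` has an attracting cycle. -/
def hyp (n : ℕ) : Set ℂ := {c | ∃ m z, N62a1eb23.IsAttractingCycle (f n c) m z}

/-- Coarse density of hyperbolicity in the Multibrot sets, to all orders. -/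
theorem result (k n : ℕ) (hn : 100 ^ (k + 1) ≤ n) (c : ℂ) (hc : c ∈ N62a1eb23.multibrotSet n) :
    -- a criterion for attracting cycles
    (‖(f n c)^[k + 1] 0‖ ^ (n - 1) < 1 / (n : ℝ) ^ (k + 3) →
      ∃ z, N62a1eb23.IsAttractingCycle (f n c) (k + 1) z) ∧
    -- the distance to `hyp n` against the parameter derivative of the critical orbit
    (∃ c' ∈ hyp n, ‖c' - c‖ * ‖deriv (fun a => (f n a)^[k + 1] 0) c‖ ≤
      5 * (k + 4) * Real.log n / n) ∧
    -- the distance to `hyp n` against the derivative of the iterate at the critical value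
    (∑ i ∈ Finset.range k, 1 / ‖deriv (f n c)^[i + 1] c‖ ≤ 1 / 2 →
      ∃ c' ∈ hyp n, ‖c' - c‖ * ‖deriv (f n c)^[k] c‖ ≤ 10 * (k + 4) * Real.log n / n) ∧
    -- density at the scale `log n / n ^ (k + 1)` along orbits that stay near the circle
    (∀ b : ℝ, 2 / n ≤ b → (∀ j, 1 ≤ j → j ≤ k → b ≤ ‖(f n c)^[j] 0‖ ^ (n - 1)) →
      ∃ c' ∈ hyp n, ‖c' - c‖ ≤ 5 * (k + 4) * (2 / b) ^ k * Real.log n / (n : ℝ) ^ (k + 1)) :=
  ⟨fun h => Pool.Agent.H462R2.CD.criterion_pow hn hc h,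
    Pool.Agent.H462R2.CD.dist_deriv hn hc,
    fun h => Pool.Agent.H462R2.CD.dist_iter hn hc h,
    fun _ hb h => Pool.Agent.H462R2.CD.dist_fixed hn hc hb h⟩

end Pool.Agent.Results.MP_af9036_an.CoarseDensityAllOrders
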