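import Mathlib
import Pool.Prelude.Def_F_c31e40fa
import Pool.Agent.H713R2.TV.TV4

set_option autoImplicit false

open Filter Metric

namespace Pool.Agent.Results.MP_af9036_an.DistanceToHyperbolicity

/-- The parameters `c` for which `z ^ d + c` has an attracting cycle. -/
def hyp (d : ℕ) : Set ℂ := {c | ∃ m z, N62a1eb23.IsAttractingCycle (fun z => z ^ d + c) m z}

/-- The point `u` is in the basin of infinity of `z ^ d + c`. -/
def Escapes (d : ℕ) (c u : ℂ) : Prop :=
  Tendsto (fun k => (fun z => z ^ d + c)^[k] u) atTop (Bornology.cobounded ℂ)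

/-- The sum over `k ≥ 1` of the inverses of `(f ^ k)'(u)`, where `f z = z ^ d + c`. -/
noncomputable def T (d : ℕ) (c u : ℂ) : ℂ :=
  ∑' k : ℕ, (deriv ((fun z => z ^ d + c)^[k + 1]) u)⁻¹

/-- For every parameter of the Multibrot set the distance to the complement of the Multibrot set,
and so the distance to the parameters with an attracting cycle, is bounded in terms of the
derivatives of the iterates along any orbit of the basin of infinity. -/
theorem result :
    ∀ d : ℕ, 2 ≤ d → ∀ c ∈ N62a1eb23.multibrotSet d,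
      infDist c (hyp d) ≤ infDist c (N62a1eb23.multibrotSet d)ᶜ ∧
      ∀ u, Escapes d c u →
        Summable (fun k => (deriv ((fun z => z ^ d + c)^[k + 1]) u)⁻¹) ∧
        (∀ n : ℕ, infDist c (N62a1eb23.multibrotSet d)ᶜ *
            ‖deriv (fun c' => (fun z => z ^ d + c')^[n] 0) c + T d c u‖ ≤
          2 * ‖u - (fun z => z ^ d + c)^[n] 0‖ *
            Real.log ((‖u‖ + 6) / ‖u - (fun z => z ^ d + c)^[n] 0‖)) ∧
        ∀ v, Escapes d c v → u ≠ v →
          infDist c (N62a1eb23.multibrotSet d)ᶜ * ‖T d c u - T d c v‖ ≤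
            2 * ‖u - v‖ * Real.log ((‖u‖ + ‖v‖ + 8) / ‖u - v‖) := by
  intro d hd c hc
  have hBd : ∀ t ∈ N62a1eb23.multibrotSet d, Pool.Agent.H713R2.AR.Bd d t := fun t ht =>
    (Pool.Agent.H712R2.mem_multibrot_iff hd t).mp ht
  have hcne : ((N62a1eb23.multibrotSet d)ᶜ).Nonempty := by
    refine ⟨3, fun h3 => ?_⟩
    have h4 := hBd 3 h3 1
    rw [Pool.Agent.H712R2.P_one hd] at h4
    norm_num at h4
  refine ⟨?_, ?_⟩
  · -- the distance to the attracting parameters
    rcases (infDist_nonneg (x := c) (s := hyp d)).eq_or_lt with h0 | h0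
    · rw [← h0]; exact infDist_nonneg
    · have h1 : ∀ c' ∈ ball c (infDist c (hyp d)),
          ¬ ∃ m z, N62a1eb23.IsAttractingCycle (fun z => z ^ d + c') m z := by
        intro c' hc' h
        have h2 : infDist c (hyp d) ≤ dist c c' := infDist_le_dist_of_mem h
        rw [mem_ball, dist_comm] at hc'
        linarith
      have h2 := Pool.Agent.H713R2.AR.ball_subset hd h0 hc h1
      rw [le_infDist hcne]
      intro y hy
      by_contra h3
      push Not at h3
      exact hy (h2 (by rwa [mem_ball, dist_comm]))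
  intro u hu
  have hu' : Pool.Agent.H713R2.TV.Esc d c u := hu
  set δ := infDist c (N62a1eb23.multibrotSet d)ᶜ with hδ
  have hδ0 : 0 ≤ δ := infDist_nonneg
  have hball : ∀ t ∈ ball c δ, Pool.Agent.H713R2.AR.Bd d t := by
    intro t ht
    apply hBd
    by_contra h
    have h2 : δ ≤ dist c t := infDist_le_dist_of_mem h
    rw [mem_ball, dist_comm] at ht
    linarith
  refine ⟨hu'.summable hd (hBd c hc), ?_, ?_⟩
  · intro n
    rcases hδ0.eq_or_lt with h0 | h0
    · rw [← h0, zero_mul]
      have h1 : ‖(fun z => z ^ d + c)^[n] 0‖ ≤ 2 := hBd c hc n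
      have h2 : ‖u - (fun z => z ^ d + c)^[n] 0‖ ≤ ‖u‖ + 6 := by
        have := norm_sub_le u ((fun z => z ^ d + c)^[n] 0)
        linarith
      rcases (norm_nonneg (u - (fun z => z ^ d + c)^[n] 0)).eq_or_lt with h3 | h3
      · rw [← h3]; simp
      · have h4 : 0 ≤ Real.log ((‖u‖ + 6) / ‖u - (fun z => z ^ d + c)^[n] 0‖) :=
          Real.log_nonneg (by rw [le_div_iff₀ h3, one_mul]; exact h2)
        positivity
    · exact Pool.Agent.H713R2.TV.main_crit hd h0 hball hu' n
  · intro v hv huv
    have hv' : Pool.Agent.H713R2.TV.Esc d c v := hv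
    rcases hδ0.eq_or_lt with h0 | h0
    · rw [← h0, zero_mul]
      have h2 : ‖u - v‖ ≤ ‖u‖ + ‖v‖ + 8 := by
        have := norm_sub_le u v
        linarith
      have h3 : 0 < ‖u - v‖ := norm_pos_iff.mpr (sub_ne_zero.mpr huv)
      have h4 : 0 ≤ Real.log ((‖u‖ + ‖v‖ + 8) / ‖u - v‖) :=
        Real.log_nonneg (by rw [le_div_iff₀ h3, one_mul]; exact h2)
      positivity
    · exact Pool.Agent.H713R2.TV.main_two hd h0 hball hu' hv' huv

end Pool.Agent.Results.MP_af9036_an.DistanceToHyperbolicity
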