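import Mathlib
import Pool.Prelude.Def_F_c31e40fa
import Pool.Agent.H637R4.PO.Fin2

set_option autoImplicit false

open Filter Topology MeasureTheory Set Metric N62a1eb23

namespace Pool.Agent.Results.MP_af9036_an.PorousNonHyperbolic

open Pool.Agent.H713R2 Pool.Agent.H713R2.AR Pool.Agent.H637R4.PO

/-- Multibrot parameters at which the areas of the sublevel sets of the escape rate decay
polynomially along some sequence are points of porosity of the set of non-hyperbolic parameters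
(parameters of the Multibrot set without attracting cycle) : at arbitrarily small scales `ρ` there
is a disc of radius `κ ρ` of parameters with escaping critical point; in particular they lie in the
closure of the parameters with an attracting cycle. -/
theorem result :
    ∀ n : ℕ, 2 ≤ n → ∀ c ∈ multibrotSet n, ∀ α : ℝ, 0 < α →
      (∀ δ : ℝ, 0 < δ → ∀ s₁ : ℝ, 0 < s₁ → ∃ s ∈ Ioo 0 s₁,
        volume {z : ℂ | green n c z ≤ s} ≤ ENNReal.ofReal (δ * s ^ α)) →
      ∀ ρ₁ : ℝ, 0 < ρ₁ → ∃ ρ ∈ Ioo 0 ρ₁, ∃ c₁ ∈ ball c ρ,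
        (∀ c' ∈ ball c₁ (5 / 8 * ((1 / 2 : ℝ) ^ (1 / α)) ^ 5 * ρ),
          Tendsto (fun k => (fun z : ℂ => z ^ n + c')^[k] 0) atTop (Bornology.cobounded ℂ)) ∧
        ∃ c₂ ∈ ball c ρ, ∃ m z, IsAttractingCycle (fun z => z ^ n + c₂) m z := by
  intro n hn c hc α hα h ρ₁ hρ₁
  obtain ⟨ρ, hρ, c₁, hc₁, hd⟩ := f_POR n hn c hc α hα (by
    intro δ hδ s₁ hs₁
    obtain ⟨s, hs, h1⟩ := h δ hδ s₁ hs₁
    exact ⟨s, hs, ENNReal.toReal_le_of_le_ofReal
      (mul_nonneg hδ.le (Real.rpow_nonneg hs.1.le _)) h1⟩) ρ₁ hρ₁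
  refine ⟨ρ, hρ, c₁, hc₁, ?_, ?_⟩
  · intro c' hc'
    by_contra hcon
    exact Set.disjoint_left.mp hd hc' hcon
  · by_contra hcon
    push Not at hcon
    have h2 := ball_subset hn hρ.1 hc (fun c' hc' ⟨m, z, hz⟩ => hcon c' hc' m z hz)
    have h3 : ‖c₁ - c‖ < ρ := by simpa [dist_eq_norm] using hc₁
    have h4 : c₁ ∈ ball c₁ (5 / 8 * ((1 / 2 : ℝ) ^ (1 / α)) ^ 5 * ρ) := by
      apply mem_ball_self
      have := hρ.1
      positivity
    exact Set.disjoint_left.mp hd h4 (h2 hc₁)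

end Pool.Agent.Results.MP_af9036_an.PorousNonHyperbolic
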